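import Pool.Agent.R284.WPR7

set_option autoImplicit false

/-!
# MP_eac85a_an: six lines in `ℝ⁴` never do weak phase retrieval

The definitions `WeaklySamePhase` and `DoesWeakPhaseRetrieval` are in `Pool.Agent.R284.WPR7`.

Sketch of the proof. Suppose the lines spanned by `φ 0, …, φ 5` do weak phase retrieval. If every
`φ j` is orthogonal to `u` or to `v`, then the squares of the coordinates of `u` and `v` are
proportional; in particular the family is full spark, and each of the ten splittings of the six
indices into two triples (with `u`, `v` the vectors orthogonal to the two triples) gets a *label*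
`D ∈ {1} × {1,-1}³` with `v ∥ D u`. The label `1` never occurs, each of the four labels flipping
one coordinate occurs at most once, and each of the three labels flipping two coordinates occurs at
most twice (two types of triples of splittings have to be excluded). Since `4 + 6 = 10`, all
these bounds are sharp and labels are unique, so all coordinates of all `u`, `v` are non-zero.
The symmetric products `u v` for five splittings with labels
`(1,1,-1,-1)` (twice), `(1,-1,1,-1)`, `(1,-1,-1,1)`, `(1,-1,-1,-1)` are linearly independent
quadratic forms vanishing at the six `φ j`, but the space of such forms has dimension at most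
four: contradiction.
-/

namespace Pool.Agent.Results.MP_eac85a_an.NoSixLines

open Pool.Agent.R284.WPR

/-- No six lines in `ℝ⁴` do weak phase retrieval; consequently the answer to Q1 is negative
(`n = 4`, `d = (1,1,1,1,1,1)`). -/
theorem result :
    (∀ W : Fin 6 → Submodule ℝ (EuclideanSpace ℝ (Fin 4)),
      (∀ i, Module.finrank ℝ (W i) = 1) → ¬ DoesWeakPhaseRetrieval W) ∧
    ¬ (∀ n : ℕ, 2 ≤ n → ∀ d : Fin (2 * n - 2) → ℕ, (∀ i, 1 ≤ d i ∧ d i ≤ n - 1) →
      ∃ W : Fin (2 * n - 2) → Submodule ℝ (EuclideanSpace ℝ (Fin n)),
        (∀ i, Module.finrank ℝ (W i) = d i) ∧ DoesWeakPhaseRetrieval W) := by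
  refine ⟨no_six_lines, fun h => ?_⟩
  obtain ⟨W, hW, hW'⟩ := h 4 (by norm_num) (fun _ => 1) (fun _ => ⟨le_rfl, by norm_num⟩)
  exact no_six_lines W hW hW'

end Pool.Agent.Results.MP_eac85a_an.NoSixLines
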